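import Pool.Agent.Y208.AC.Main
import Pool.Agent.Y286.AC.RF

/-!
# The generalised Andrews-Curtis property fails in all ranks

The group consists of matrices in `SL₂` of the ring of functions on a disjoint union of spheres
`S^(3k-1)`, `k ≥ 2`; the tuple attached to a sphere is the tuple of its coordinates, which cannot
be extended to the ball without becoming central at a point (no retraction theorem).
The residual finiteness (`Y286/AC/RF.lean`) is by helper286.
-/

set_option autoImplicit false

namespace Pool.Agent.Results.MP_71c9ee_al.AllRanks

open Pool.Agent.Y208.AC Pool.Agent.Results.MP_71c9ee_al.GenACFails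

/-- For all `K`, `N` there is a finitely generated, residually finite, perfect group `G` with
`d_G(G) = 1` for which the generalised Andrews-Curtis property fails for `k`-tuples, for every
`k` with `2 ≤ k ≤ K`; moreover `N_k(G)` contains `N` pairwise inequivalent tuples with equivalent
images in the abelianization, none of which is equivalent to a tuple with a trivial entry. For a
suitable countable perfect group with `d_G(G) = 1` this holds for all `k ≥ 2`, with infinitely
many tuples. -/
theorem result :
    (∀ K N : ℕ, ∃ (G : Type) (_ : Group G), Group.FG G ∧ ResFin G ∧ commutator G = ⊤ ∧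
      dG G = 1 ∧ ∀ k, 2 ≤ k → k ≤ K →
        FailsAt G k ∧ ∃ V : Fin N → (Fin k → G), Classes V) ∧
    ∃ (G : Type) (_ : Group G), Countable G ∧ commutator G = ⊤ ∧ dG G = 1 ∧
      ∀ k, 2 ≤ k → FailsAt G k ∧ ∃ V : ℕ → (Fin k → G), Classes V :=
  main Pool.Agent.Y286.AC.rf

end Pool.Agent.Results.MP_71c9ee_al.AllRanks
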